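import Pool.Agent.H61.KW.TB

/-!
# Kuiper board KW, row EXG: there is an essential face
-/

set_option autoImplicit false

open Topology Set
open Pool.Agent.H59 Pool.Agent.H64.LB Pool.Agent.H61.KU Pool.Agent.H61.KV Pool.Agent.H61.KW

namespace Pool.Agent.H56.KW.EXG

theorem exg_box {V : Type} [NormedAddCommGroup V] [NormedSpace ℝ V] [FiniteDimensional ℝ V]
    {C : Set V} (hC : IsCC C) {c : V} (hc : c ∈ C) (htop : Sp C c = ⊤) (v : Fin 5 → V) :
    ∃ U : Set (Fin 5 → ℝ), IsOpen U ∧ (0 : Fin 5 → ℝ) ∈ U ∧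
      ∀ y ∈ U, c + ∑ i, y i • v i ∈ C := by
  have h1 : ∀ i, ∃ ε : ℝ, 0 < ε ∧ ∀ s : ℝ, |s| ≤ ε → c + s • v i ∈ C := by
    intro i
    obtain ⟨ε, hε, h2⟩ := room hC hc (show v i ∈ Sp C c by rw [htop]; exact Submodule.mem_top)
    obtain ⟨ε', hε', h3⟩ := room hC hc (show -v i ∈ Sp C c by rw [htop]; exact Submodule.mem_top)
    refine ⟨min ε ε', lt_min hε hε', fun s hs => ?_⟩
    have h4 := hs.trans (min_le_left _ _)
    have h5 := hs.trans (min_le_right _ _)
    rcases le_total 0 s with h6 | h6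
    · rw [abs_of_nonneg h6] at h4
      exact mem_C (h2 s h6 h4)
    · rw [abs_of_nonpos h6] at h5
      have h7 := mem_C (h3 (-s) (by linarith) h5)
      rwa [smul_neg, neg_smul, neg_neg] at h7
  choose ε hε h2 using h1
  refine ⟨{y | ∀ i, |y i| < ε i / 5}, ?_, ?_, ?_⟩
  · have h3 : {y : Fin 5 → ℝ | ∀ i, |y i| < ε i / 5} = ⋂ i, {y | |y i| < ε i / 5} := by
      ext y
      simp
    rw [h3]
    exact isOpen_iInter_of_finite fun i => isOpen_lt (by fun_prop) continuous_const
  · intro i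
    have := hε i
    simp only [Pi.zero_apply, abs_zero]
    linarith
  · intro y hy
    have h3 : c + ∑ i, y i • v i = ∑ i : Fin 5, (1 / 5 : ℝ) • (c + (5 * y i) • v i) := by
      simp only [smul_add, smul_smul, Finset.sum_add_distrib]
      congr 1
      · rw [Finset.sum_const, Finset.card_univ, Fintype.card_fin, ← Nat.cast_smul_eq_nsmul ℝ,
          smul_smul]
        norm_num
      · refine Finset.sum_congr rfl fun i _ => ?_
        congr 1
        ring
    rw [h3]
    have h4 : ∀ i, (1 / 5 : ℝ) • (c + (5 * y i) • v i) ∈ C := by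
      intro i
      refine hC.smul _ (by norm_num) _ (h2 i _ ?_)
      have := hy i
      rw [abs_mul, abs_of_nonneg (by norm_num : (0 : ℝ) ≤ 5)]
      linarith
    have h5 : ∀ s : Finset (Fin 5), ∑ i ∈ s, (1 / 5 : ℝ) • (c + (5 * y i) • v i) ∈ C := by
      intro s
      classical
      induction s using Finset.induction_on with
      | empty => simpa using hC.zero
      | insert i s hi ih =>
        rw [Finset.sum_insert hi]
        exact hC.add _ (h4 i) _ ih
    exact h5 Finset.univ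

/-- five linearly independent vectors in the kernel of a functional on a space of dimension 9 -/
theorem exg_ind {V : Type} [NormedAddCommGroup V] [NormedSpace ℝ V] [FiniteDimensional ℝ V]
    (h9 : Module.finrank ℝ V = 9) (e : V →ₗ[ℝ] ℝ) :
    ∃ v : Fin 5 → V, LinearIndependent ℝ v ∧ ∀ i, e (v i) = 0 := by
  have h1 := LinearMap.finrank_range_add_finrank_ker e
  have h2 : Module.finrank ℝ (LinearMap.range e) ≤ 1 := by
    have := Submodule.finrank_le (LinearMap.range e)
    rwa [Module.finrank_self] at this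
  have h3 : 5 ≤ Module.finrank ℝ (LinearMap.ker e) := by omega
  let b := Module.finBasis ℝ (LinearMap.ker e)
  refine ⟨fun i => (b (Fin.castLE h3 i) : V), ?_, fun i => ?_⟩
  · have h4 : LinearIndependent ℝ (fun i => b (Fin.castLE h3 i)) :=
      b.linearIndependent.comp _ (Fin.castLE_injective h3)
    exact h4.map' (LinearMap.ker e).subtype (Submodule.ker_subtype _)
  · exact LinearMap.mem_ker.1 (b (Fin.castLE h3 i)).2

theorem pf_EXG (hDI5 : T_DI5) (hLFM : T_LFM) (hCNC : T_CNC) (hMNS : T_MNS)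
    (h : Pool.Agent.H61.KW.T_TOP) :
    T_EXG := by
  intro V _ _ _ m hm
  by_contra hno
  obtain ⟨hC, hs, hmC, hm0, -, -, -, -⟩ := hCNC V m hm
  have hsub : ∀ q ∈ Cn m, q ∈ Mh m := by
    intro q hq
    by_contra h1
    obtain ⟨p, -, hp⟩ := hMNS V m hm q hq (fun h2 => h1 (h2 (self hC hq)))
    exact hno ⟨p, hp⟩
  obtain ⟨c, hc, htop, -⟩ := h V (Cn m) hC hs
  obtain ⟨e, he⟩ := hC.pos
  have hc0 : c ≠ 0 := by
    intro h0
    have h1 : Sp (Cn m) c = ⊥ := by
      rw [eq_bot_iff]
      intro v hv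
      rw [h0] at hv
      rw [sp_of_zero hC hv]
      exact Submodule.zero_mem _
    have h2 : (⊥ : Submodule ℝ V) = ⊤ := h1.symm.trans htop
    have h3 : Module.finrank ℝ (⊥ : Submodule ℝ V) = Module.finrank ℝ (⊤ : Submodule ℝ V) := by
      rw [h2]
    rw [finrank_bot, finrank_top, hm.rank] at h3
    omega
  have hec : 0 < e c := he c hc hc0
  obtain ⟨v, hv, hev⟩ := exg_ind hm.rank e
  obtain ⟨U, hU, hU0, hUC⟩ := exg_box hC hc htop v
  have hephi : ∀ y : Fin 5 → ℝ, e (c + ∑ i, y i • v i) = e c := by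
    intro y
    rw [map_add, map_sum]
    simp [hev]
  have hphi0 : ∀ y : Fin 5 → ℝ, c + ∑ i, y i • v i ≠ 0 := by
    intro y h0
    have h1 := hephi y
    rw [h0, map_zero] at h1
    linarith
  have hcont : Continuous (fun y : U => c + ∑ i, y.1 i • v i) := by
    refine continuous_const.add (continuous_finsetSum _ fun i _ => ?_)
    exact ((continuous_apply i).comp continuous_subtype_val).smul continuous_const
  obtain ⟨ψ, hψ⟩ := hLFM V m hm U (fun y : U => c + ∑ i, y.1 i • v i) hcont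
    (fun y => ⟨hsub _ (hUC y.1 y.2), hphi0 y.1⟩)
  classical
  let g : (Fin 5 → ℝ) → PN 2 := fun y => if hy : y ∈ U then ψ ⟨y, hy⟩ else ψ ⟨0, hU0⟩
  have hg : ∀ y (hy : y ∈ U), g y = ψ ⟨y, hy⟩ := fun y hy => dif_pos hy
  refine hDI5 U g hU ⟨0, hU0⟩ ?_ ?_
  · rw [continuousOn_iff_continuous_domRestrict]
    have h1 : U.domRestrict g = ψ := by
      funext y
      exact hg y.1 y.2
    rw [h1]
    exact ψ.continuous
  · intro y hy y' hy' hyy
    rw [hg y hy, hg y' hy'] at hyy
    obtain ⟨t, ht, h1⟩ := hψ ⟨y, hy⟩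
    obtain ⟨t', ht', h2⟩ := hψ ⟨y', hy'⟩
    rw [← hyy] at h2
    have h3 := hephi y
    have h4 := hephi y'
    simp only at h1 h2
    have hpos : 0 < e (m (ψ ⟨y, hy⟩)) := he _ (hmC _) (hm0 _)
    rw [h1, map_smul, smul_eq_mul] at h3
    rw [h2, map_smul, smul_eq_mul] at h4
    have h5 : t = t' := by
      have h6 : (t - t') * e (m (ψ ⟨y, hy⟩)) = 0 := by linarith
      rcases mul_eq_zero.1 h6 with h7 | h7
      · linarith
      · exact absurd h7 hpos.ne'
    rw [← h5, ← h1] at h2
    have h6 : ∑ i, (y' i - y i) • v i = 0 := by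
      simp only [sub_smul, Finset.sum_sub_distrib]
      rw [sub_eq_zero]
      exact add_left_cancel h2
    funext i
    have h7 := Fintype.linearIndependent_iff.1 hv _ h6 i
    linarith

end Pool.Agent.H56.KW.EXG
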