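import Pool.Agent.H61.KW.TC

/-!
Kuiper board KW, module HUL.
-/

open Topology Set Pool.Agent.H59 Pool.Agent.H64.LB Pool.Agent.H61.KU Pool.Agent.H61.KV
  Pool.Agent.H61.KW

namespace Pool.Agent.H56.KW.HUL

theorem pf_HUL (hCNC : T_CNC) (h : T_GNX) : T_HUL := by
  intro f hcfg hfin
  set m : PN 2 → E8 × ℝ := fun x => ((f x, (1 : ℝ)) : E8 × ℝ) with hm
  obtain ⟨hC, -, hmem, hne, -, -, -, hpt⟩ := hCNC (E8 × ℝ) m hcfg
  have hA : ∀ q ∈ convexHull ℝ (range m), q.2 = 1 := by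
    have hsub : convexHull ℝ (range m) ⊆ {q : E8 × ℝ | q.2 = 1} := by
      refine convexHull_min ?_ ?_
      · rintro _ ⟨x, rfl⟩
        rfl
      · intro x hx y hy a b _ _ hab
        simp only [mem_setOf_eq] at hx hy ⊢
        rw [Prod.snd_add, Prod.smul_snd, Prod.smul_snd, hx, hy, smul_eq_mul, smul_eq_mul,
          mul_one, mul_one, hab]
    exact fun q hq => hsub hq
  have hB : ∀ p ∈ Cn m, p ≠ 0 → 0 < p.2 := by
    rintro p ⟨c, q, hc, hq, rfl⟩ h0
    rw [Prod.smul_snd, hA q hq, smul_eq_mul, mul_one]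
    rcases hc.eq_or_lt with h1 | h1
    · exact absurd (by rw [← h1, zero_smul]) h0
    · exact h1
  refine ⟨{v : E8 | Ex (Cn m) ((v, (1 : ℝ)) : E8 × ℝ)}, ?_, ?_⟩
  · have h1 : {v : E8 | Ex (Cn m) ((v, (1 : ℝ)) : E8 × ℝ)} =
        (fun v : E8 => ((v, (1 : ℝ)) : E8 × ℝ)) ⁻¹' {x | Ex (Cn m) x ∧ x.2 = 1} := by
      ext v
      simp
    rw [h1]
    refine hfin.preimage ?_
    intro v _ w _ hvw
    exact congrArg Prod.fst hvw
  · apply Subset.antisymm
    · refine convexHull_min ?_ (convex_convexHull ℝ _)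
      rintro _ ⟨x, rfl⟩
      obtain ⟨n, y, hy, hsum⟩ := h (E8 × ℝ) (Cn m) (m x) hC (hmem x)
      have hc : ∀ i, 0 < (y i).2 := fun i => hB (y i) (hy i).1.1 (hy i).1.2.1
      have hS : ∀ i, ((y i).2)⁻¹ • (y i).1 ∈
          {v : E8 | Ex (Cn m) ((v, (1 : ℝ)) : E8 × ℝ)} := by
        intro i
        have h1 := ex_smul hC (hy i).1 (inv_pos.2 (hc i))
        have h2 : ((y i).2)⁻¹ • y i = ((((y i).2)⁻¹ • (y i).1, (1 : ℝ)) : E8 × ℝ) := by
          refine Prod.ext rfl ?_
          rw [Prod.smul_snd, smul_eq_mul, inv_mul_cancel₀ (hc i).ne']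
        rw [h2] at h1
        exact h1
      have hs2 : ∑ i, (y i).2 = 1 := by
        have := congrArg Prod.snd hsum
        rw [Prod.snd_sum] at this
        exact this.symm
      have hs1 : f x = ∑ i, (y i).2 • (((y i).2)⁻¹ • (y i).1) := by
        have h1 := congrArg Prod.fst hsum
        rw [Prod.fst_sum] at h1
        have h2 : f x = ∑ i, (y i).1 := h1
        rw [h2]
        refine Finset.sum_congr rfl fun i _ => ?_
        rw [smul_smul, mul_inv_cancel₀ (hc i).ne', one_smul]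
      rw [hs1]
      refine (convex_convexHull ℝ _).sum_mem (fun i _ => (hc i).le) hs2 fun i _ => ?_
      exact subset_convexHull ℝ _ (hS i)
    · refine convexHull_mono ?_
      intro v hv
      obtain ⟨x, hx⟩ := hpt ((v, (1 : ℝ)) : E8 × ℝ) hv.1 hv.2.1
      obtain ⟨c, hc⟩ := hv.2.2 (m x) hx
      have h2 : (1 : ℝ) = c := by
        have := congrArg Prod.snd hc
        rw [Prod.smul_snd, smul_eq_mul, mul_one] at this
        exact this
      have h1 := congrArg Prod.fst hc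
      rw [Prod.smul_fst, ← h2, one_smul] at h1
      exact ⟨x, h1⟩

end Pool.Agent.H56.KW.HUL
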