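import Pool.Agent.H61.KW.TC

/-!
Kuiper board KW, module SHP.
-/

open Topology Set Pool.Agent.H59 Pool.Agent.H64.LB Pool.Agent.H61.KU Pool.Agent.H61.KV
  Pool.Agent.H61.KW

namespace Pool.Agent.H56.KW.SHP

theorem pf_SHP (h : T_SML) (h2 : T_NCC) (h3 : T_II2) (h4 : T_TRC) (h5 : T_SHB) (h6 : T_SH4)
    (h7 : T_SH3) (h8 : T_SH2) (h9 : T_SH1) (h10 : T_LDE) : T_SHP := by
  intro V _ _ _ m q g hR
  have hC : IsCC (Cn m) := hR.kit.cc
  have hqC : q ∈ Cn m := hR.kit.mem q hR.ef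
  have hgC : g ∈ Cn m := hR.tf.mem
  have hq4 := hR.kit.rk4 q hR.ef
  obtain ⟨m1, m2, m3, m4⟩ := h V m q g hR
  have hbq : rk (Cn m) (g + q) = 5 + rk (Cn m) q := by
    have e1 := (h10 V m hR.kit q g q 0 q hR.ef hR.tf (self hC hqC) (self hC hqC)
      (zero_fc hC hqC) (fun t _ ht => fc_of_zero hC ht)).1
    omega
  have hb0 : ¬ rk (Cn m) (g + 0) = 5 + rk (Cn m) (0 : V) := by
    rw [add_zero, hR.rk4, rk_zero hC]
    omega
  obtain ⟨b, hb, hbne, hbig⟩ := h5 V (Cn m) q (fun s => rk (Cn m) (g + s) = 5 + rk (Cn m) s)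
    hC hqC hbq hb0 m3 m4
  have hsmall : ∀ s ∈ Fc (Cn m) q, b ∉ Fc (Cn m) s → rk (Cn m) (g + s) = 4 + rk (Cn m) s := by
    intro s hs hbs
    rcases m1 s hs with e | e
    · exact e
    · exact absurd ((hbig s hs).1 e) hbs
  have hB : Bsy (Cn m) q b := by
    refine ⟨hC, hqC, hq4, hb, ?_, ?_, ?_⟩
    · intro t u ht hu htq huq hbt hbu
      refine h2 V m q g t u hR ht hu htq huq ?_ ?_
      · rw [hsmall t htq hbt, ex_rk hC ht]
      · rw [hsmall u huq hbu, ex_rk hC hu]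
    · intro e t he ht heq htq hbe hbt
      refine h3 V m q g e t hR he ht heq htq ?_ ?_
      · rw [hsmall e heq hbe, he]
      · rw [hsmall t htq hbt, ex_rk hC ht]
    · intro s t hs ht hsq htq hts hbs hbt
      refine h4 V m q g s t hR hs ht hsq htq hts ?_ ?_
      · rw [hsmall s hsq hbs, hs]
      · rw [hsmall t htq hbt, ex_rk hC ht]
  have hbC : b ∈ Cn m := mem_C hb
  have e1 := rk_pos hC hbC hbne
  have e2 := rk_mono hC hqC hb
  rw [hq4] at e2
  have hcases : rk (Cn m) b = 1 ∨ rk (Cn m) b = 2 ∨ rk (Cn m) b = 3 ∨ rk (Cn m) b = 4 := by omega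
  rcases hcases with e | e | e | e
  · rcases h9 V (Cn m) q b hB e with e3 | ⟨a, ha⟩
    · exact absurd e3 hR.ns
    · refine ⟨a, b, ha, ?_⟩
      have e4 := (hbig b hb).2 (self hC hbC)
      rw [e4, e]
  · exact absurd (h8 V (Cn m) q b hB e) hR.ns
  · exact absurd (h7 V (Cn m) q b hB e) hR.ns
  · exact absurd (h6 V (Cn m) q b hB e) hR.ns

end Pool.Agent.H56.KW.SHP
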