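import Pool.Agent.H61.KW.TC

/-!
Kuiper board KW, module SML.
-/

open Topology Set Pool.Agent.H59 Pool.Agent.H64.LB Pool.Agent.H61.KU Pool.Agent.H61.KV
  Pool.Agent.H61.KW

namespace Pool.Agent.H56.KW.SML

theorem pf_SML (h : T_CEL4) (h2 : T_LDE) (h3 : T_SG2) (h4 : T_LDM) (h5 : T_LDI) : T_SML := by
  intro V _ _ _ m q g hR
  have hC : IsCC (Cn m) := hR.kit.cc
  have hqC : q ∈ Cn m := hR.kit.mem q hR.ef
  have hgC : g ∈ Cn m := hR.tf.mem
  have hftd : Ftd (Cn m) q := hR.kit.ftd q hR.ef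
  have key : ∀ s ∈ Fc (Cn m) q, rk (Cn m) (g + q) = 9 ∧
      rk (Cn m) (g + s) ≤ 5 + rk (Cn m) s ∧ 4 + rk (Cn m) s ≤ rk (Cn m) (g + s) := by
    intro s hs
    have hsC : s ∈ Cn m := mem_C hs
    obtain ⟨e1, -, e3, e4, -⟩ := h2 V m hR.kit q g s 0 s hR.ef hR.tf hs (self hC hsC)
      (zero_fc hC hsC) (fun t _ ht => fc_of_zero hC ht)
    rw [hR.rk4] at e4
    exact ⟨e1, e3, e4⟩
  refine ⟨?_, ?_, ?_, ?_⟩
  · intro s hs
    obtain ⟨-, e3, e4⟩ := key s hs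
    omega
  · intro s hs hrk
    refine h3 V (Cn m) q g s hC hftd hgC hR.tf.foot hR.tf.ov ?_ hs (by rw [hR.rk4]; exact hrk)
    intro g' hg' hgg' hov
    have hT : Tf m q g' := ⟨mem_C hg', foot_down hC hftd hgC hR.tf.foot hg', hov⟩
    have e1 := h V m hR.kit hR.star q g' hR.ef hR.ns hT
    have e2 := rk_lt hC hgC hg' hgg'
    rw [hR.rk4] at e2
    omega
  · intro s hs s' hs' hrk
    have e1 := h4 V (Cn m) q g s s' hC hftd hgC hR.tf.foot hs hs'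
    obtain ⟨-, e3, e4⟩ := key s hs
    omega
  · intro s hs s' hs' r hr hint hrk hrk'
    have e1 := h5 V (Cn m) q g q s s' r hC hftd hgC hR.tf.foot (self hC hqC) hs hs' hr hint
    have hrs : r ∈ Fc (Cn m) s := ((hint r).1 (self hC hr)).1
    have hrq : r ∈ Fc (Cn m) q := tra hC hqC hs hrs
    obtain ⟨e2, e3, e4⟩ := key r hrq
    have e5 := hR.kit.rk4 q hR.ef
    omega

end Pool.Agent.H56.KW.SML
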